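import Pool.Agent.W763.PB.Stm

set_option autoImplicit false

namespace Pool.Agent.W701.PB

open Pool.Agent.W763.PB

noncomputable section

lemma prod_ge (a c : ℕ → ℝ) (h0 : ∀ s, 0 ≤ a s) (h1 : ∀ s, a s ≤ 1) (h2 : ∀ s, 1 - a s ≤ c s)
    (S : ℕ) : 0 ≤ ∏ s ∈ Finset.range S, a s ∧ ∏ s ∈ Finset.range S, a s ≤ 1 ∧
      1 - ∑ s ∈ Finset.range S, c s ≤ ∏ s ∈ Finset.range S, a s := by
  induction S with
  | zero => simp
  | succ n ih =>
    obtain ⟨i1, i2, i3⟩ := ih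
    rw [Finset.prod_range_succ, Finset.sum_range_succ]
    refine ⟨mul_nonneg i1 (h0 n), mul_le_one₀ i2 (h0 n) (h1 n), ?_⟩
    have h3 := h1 n
    have h4 := h2 n
    nlinarith

theorem r3 : S_R1 → S_R2 → S_R3 := by
  intro hR1 hR2 k b hk hb S
  obtain ⟨hb64, _, _, hsum, _⟩ := hR2 k b hk hb
  have hb0 : (0 : ℝ) < b := by linarith
  have hx0 : ∀ s : ℕ, 0 ≤ (1 / (b : ℝ)) ^ (s + 1) := fun s => by positivity
  have hx1 : ∀ s : ℕ, (1 / (b : ℝ)) ^ (s + 1) ≤ 1 := fun s =>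
    pow_le_one₀ (by positivity) (by rw [div_le_one hb0]; linarith)
  have hk1 := (hR1 k hk).1
  have h := prod_ge (fun s => kap k ((1 / (b : ℝ)) ^ (s + 1)))
    (fun s => k * (1 / (b : ℝ)) ^ (s + 1)) (fun s => (hk1 _ (hx0 s) (hx1 s)).1.le)
    (fun s => (hk1 _ (hx0 s) (hx1 s)).2.1) (fun s => (hk1 _ (hx0 s) (hx1 s)).2.2.2.1) S
  have h2 := hsum S
  linarith [h.2.2]

end

end Pool.Agent.W701.PB
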